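import Pool.Agent.Helper46.PM.RowsColumns
import Pool.Agent.Helper96.PM.Thin

/-!
# Project PM, module PM-32: extraction of a system
-/

set_option autoImplicit false

namespace Pool.Agent.Helper35.PM

open Finset
open scoped Classical

open H46

/-- PM-32: uses PM-28 to 31. -/
theorem exists_sys (q : ℕ) (hq : 0 < q) (η : ℝ) (hη : 0 < η) :
    ∃ ε γ d₀ : ℝ, 0 < ε ∧ 0 < γ ∧ 0 < d₀ ∧ ∀ (V : Type) [Fintype V] [Nonempty V]
      (G : SimpleGraph V) (d : ℝ), d₀ ≤ d → d * Fintype.card V ≤ ePairs G univ univ →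
        NoSpot G ε γ d →
        ∃ (s : Sys V) (D : ℝ), s.G = G ∧ s.OK 128 D η q ∧ 1 ≤ η * D := by
  obtain ⟨η1, hη1, hη1η, hη11⟩ : ∃ η1 : ℝ, 0 < η1 ∧ η1 ≤ η ∧ η1 ≤ 1 :=
    ⟨min η 1, lt_min hη one_pos, min_le_left _ _, min_le_right _ _⟩
  have hqR : (1 : ℝ) ≤ q := by exact_mod_cast hq
  obtain ⟨γ, hγ, hγ1, hγ2⟩ : ∃ γ : ℝ, 0 < γ ∧ γ ≤ η1 / 32 ∧ γ * (1024 * q) ≤ 1 := by
    refine ⟨min (η1 / 32) (1 / (1024 * q)), lt_min (by positivity) (by positivity),
      min_le_left _ _, ?_⟩
    have h1 : min (η1 / 32) (1 / (1024 * (q : ℝ))) ≤ 1 / (1024 * q) := min_le_right _ _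
    have h2 : (0 : ℝ) < 1024 * q := by positivity
    calc min (η1 / 32) (1 / (1024 * (q : ℝ))) * (1024 * q) ≤ 1 / (1024 * q) * (1024 * q) :=
          mul_le_mul_of_nonneg_right h1 h2.le
      _ = 1 := div_mul_cancel₀ _ h2.ne'
  refine ⟨η1 / 16384, γ, 1024 * q + 32 / η, by positivity, hγ, by positivity, ?_⟩
  intro V _ _ G d hd0 hdc hsp
  have hη32 : 0 < 32 / η := by positivity
  have hdpos : 0 < d := by linarith
  obtain ⟨V', d', hVne, hdd', hVe, hVs⟩ := exists_densest G d hdpos hdc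
  have hd'pos : 0 < d' := lt_of_lt_of_le hdpos hdd'
  have hd'q : 1024 * (q : ℝ) ≤ d' := by linarith
  have hd'η : 32 / η ≤ d' := by linarith
  have hsp' : NoSpot G (η1 / 16384) γ d' := by
    intro U W hU hW
    have h1 : γ * d ≤ γ * d' := mul_le_mul_of_nonneg_left hdd' hγ.le
    exact hsp U W (h1.trans hU) (h1.trans hW)
  obtain ⟨Bk, hBk1, hBk2, hBk3⟩ := exists_back G d' hd'pos.le V' hVs
  obtain ⟨A, B, hAV, hBV, hAB, hBne, hAN, hAg, hBg⟩ := exists_rows_columns G (η1 / 16384) γ
    (η1 / 32) d' hd'pos (by positivity) (by positivity) (by linarith) hγ1 V' hVne hVe hVs hsp'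
  obtain ⟨good, hgood⟩ : ∃ good : V → V → Prop, ∀ a b, good a b ↔ G.Adj a b ∧
      (((V'.filter fun c => G.Adj a c ∧ G.Adj b c).card : ℝ) ≤ η1 / 32 * d') :=
    ⟨_, fun a b => Iff.rfl⟩
  obtain ⟨D, hD⟩ : ∃ D : ℝ, d' = 32 * D := ⟨d' / 32, by ring⟩
  have hDpos : 0 < D := by linarith
  have hγD : γ * d' ≤ D := by
    have h1 : γ ≤ 1 / 32 := hγ1.trans (by linarith)
    have h2 : γ * d' ≤ 1 / 32 * d' := mul_le_mul_of_nonneg_right h1 hd'pos.le
    linarith
  have hNle : ∀ a ∈ A, ((B.filter fun b => G.Adj a b).card : ℝ) ≤ 128 * D := by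
    intro a ha
    have := hAN a ha
    linarith
  have hNge : ∀ a ∈ A, D ≤ ((B.filter fun b => G.Adj a b).card : ℝ) := by
    intro a ha
    have h1 := hAg a ha
    have h2 : d' / 32 = D := by linarith
    rw [h2] at h1
    refine h1.trans ?_
    exact_mod_cast Finset.card_le_card fun b hb => by
      rw [Finset.mem_filter] at hb
      rw [Finset.mem_filter]
      exact ⟨hb.1, hb.2.1⟩
  obtain ⟨near, hnear⟩ : ∃ near : V → V → Prop, ∀ a a', near a a' ↔
      η * D ≤ (((B.filter fun b => G.Adj a b) ∩ (B.filter fun b => G.Adj a' b)).card : ℝ) :=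
    ⟨_, fun a b => Iff.rfl⟩
  set m : ℕ := ⌈γ * d'⌉₊ with hm
  have hmpos : 0 < m := Nat.ceil_pos.2 (by positivity)
  have hmle : (m : ℝ) ≤ γ * d' + 1 := (Nat.ceil_lt_add_one (by positivity)).le
  obtain ⟨A', S, hA', hA'n, hS, hSs⟩ := exists_thinning A B good near m q hmpos hq (by
    intro a ha
    set U : Finset V := A.filter fun a' => near a a' with hU
    by_contra hcon
    rw [not_le] at hcon
    have h1 : γ * d' ≤ U.card := (Nat.le_ceil _).trans (by exact_mod_cast hcon.le)
    have h2 := hsp' U (B.filter fun b => G.Adj a b) h1 (hγD.trans (hNge a ha))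
    have h3 : (U.card : ℝ) * (η * D) ≤ (ePairs G U (B.filter fun b => G.Adj a b) : ℝ) := by
      rw [ePairs_eq_sum]
      push_cast
      rw [← nsmul_eq_mul]
      refine Finset.card_nsmul_le_sum _ _ _ fun a' ha' => ?_
      rw [hU, Finset.mem_filter, hnear] at ha'
      refine ha'.2.trans ?_
      unfold dgr
      exact_mod_cast Finset.card_le_card fun b hb => by
        rw [Finset.mem_inter, Finset.mem_filter, Finset.mem_filter] at hb
        rw [Finset.mem_filter, Finset.mem_filter]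
        exact ⟨hb.1, hb.2.2⟩
    have hUpos : (0 : ℝ) < U.card := by
      have : 0 < U.card := lt_of_le_of_lt (Nat.zero_le _) hcon
      exact_mod_cast this
    have h4 : η1 / 16384 * ((U.card : ℝ) * ((B.filter fun b => G.Adj a b).card : ℝ)) ≤
        η1 / 16384 * (U.card * (128 * D)) :=
      mul_le_mul_of_nonneg_left (mul_le_mul_of_nonneg_left (hNle a ha) hUpos.le) (by positivity)
    have h5 : (U.card : ℝ) * (η1 * D) ≤ (U.card : ℝ) * (η * D) :=
      mul_le_mul_of_nonneg_left (mul_le_mul_of_nonneg_right hη1η hDpos.le) hUpos.le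
    have h6 : 0 < (U.card : ℝ) * (η1 * D) := by positivity
    linarith) (by
    intro b hb
    have h1 := hBg b hb
    have h2 : ((8 * m * q : ℕ) : ℝ) ≤ d' / 64 := by
      push_cast
      have h3 : 8 * (m : ℝ) * q ≤ 8 * (γ * d' + 1) * q :=
        mul_le_mul_of_nonneg_right (by linarith) (by positivity)
      have h4 : d' * (γ * (1024 * q)) ≤ d' * 1 := mul_le_mul_of_nonneg_left hγ2 hd'pos.le
      linarith
    have h3 : ((8 * m * q : ℕ) : ℝ) ≤ ((A.filter fun a => good a b).card : ℝ) := by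
      refine (h2.trans h1).trans (le_of_eq ?_)
      congr 2
      ext a
      simp only [Finset.mem_filter, hgood]
    exact_mod_cast h3)
  refine ⟨⟨G, B, A', Bk, S⟩, D, rfl, ?_, ?_⟩
  · have hN : ∀ a, Sys.N ⟨G, B, A', Bk, S⟩ a = B.filter fun b => G.Adj a b := fun a => rfl
    refine ⟨hBne, Finset.disjoint_of_subset_left hA' hAB, ?_, hη, ?_, ?_, ?_, ?_, ?_, ?_, ?_, ?_,
      ?_, ?_⟩
    · linarith
    · intro a ha
      rw [hN]
      exact hNle a (hA' ha)
    · intro a ha
      rw [hN]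
      exact hNge a (hA' ha)
    · intro a ha a' ha' hne
      rw [hN, hN]
      have := hA'n a ha a' ha' hne
      rw [hnear, not_le] at this
      exact this.le
    · intro a ha a' ha'
      rw [hN, hN]
      have h1 := hsp' (B.filter fun b => G.Adj a b) (B.filter fun b => G.Adj a' b)
        (hγD.trans (hNge a (hA' ha))) (hγD.trans (hNge a' (hA' ha')))
      have h2 : ((B.filter fun b => G.Adj a b).card : ℝ) *
          ((B.filter fun b => G.Adj a' b).card : ℝ) ≤ (128 * D) * (128 * D) :=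
        mul_le_mul (hNle a (hA' ha)) (hNle a' (hA' ha')) (Nat.cast_nonneg _) (by positivity)
      have h3 := mul_le_mul_of_nonneg_left h2 (show (0 : ℝ) ≤ η1 / 16384 by positivity)
      have h4 : η1 * D ^ 2 ≤ η * D ^ 2 := mul_le_mul_of_nonneg_right hη1η (by positivity)
      have h5 : η1 / 16384 * ((128 * D) * (128 * D)) = η1 * D ^ 2 := by ring
      unfold ePairs at h1
      linarith
    · intro x y hy
      exact hBk1 x y hy
    · intro x _
      refine (hBk2 x).trans ?_
      linarith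
    · intro x hx y hy hxy
      exact hBk3 x (hBV hx) y (hBV hy) hxy
    · intro x hx a ha
      obtain ⟨h1, h2, h3⟩ := hS x hx
      have h4 := (hgood a x).1 (h3 a ha)
      refine ⟨h1 ha, ?_, ?_⟩
      · rw [hN, Finset.mem_filter]
        exact ⟨hx, h4.1⟩
      · rw [hN]
        have h5 : ((((B.filter fun b => G.Adj a b).filter fun y => G.Adj x y).card : ℕ) : ℝ) ≤
            ((V'.filter fun c => G.Adj a c ∧ G.Adj x c).card : ℝ) := by
          exact_mod_cast Finset.card_le_card fun y hy => by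
            rw [Finset.mem_filter, Finset.mem_filter] at hy
            rw [Finset.mem_filter]
            exact ⟨hBV hy.1.1, hy.1.2, hy.2⟩
        have h6 : η1 / 32 * d' = η1 * D := by rw [hD]; ring
        have h7 : η1 * D ≤ η * D := mul_le_mul_of_nonneg_right hη1η hDpos.le
        have h8 := h4.2
        linarith
    · intro x hx
      exact (hS x hx).2.1
    · exact hSs
  · have h1 : 32 / η ≤ 32 * D := by linarith
    have h2 : η * (32 / η) ≤ η * (32 * D) := mul_le_mul_of_nonneg_left h1 hη.le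
    rw [mul_div_cancel₀ _ hη.ne'] at h2
    linarith

end Pool.Agent.Helper35.PM
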