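import Pool.Agent.Helper46.PM.PGOfSys
import Pool.Agent.Helper46.PM.SysExists
import Pool.Agent.Helper48.PM.PMofPG

/-!
# Project PM, module PM-33: the dense spot theorem
-/

set_option autoImplicit false

namespace Pool.Agent.Helper35.PM

open Finset
open scoped Classical

/-- PM-33: the dense spot theorem. -/
theorem dense_spot {W : Type} [Fintype W] (H : SimpleGraph W) (hH : H.Colorable 2) :
    ∃ ε γ d₀ : ℝ, 0 < ε ∧ 0 < γ ∧ 0 < d₀ ∧ ∀ (V : Type) [Fintype V] [Nonempty V]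
      (G : SimpleGraph V) (d : ℝ), d₀ ≤ d → d * Fintype.card V ≤ ePairs G univ univ →
        NoSpot G ε γ d → HasPM H G := by
  obtain ⟨k, hk, H4⟩ := hasPM_of_hasPG H hH
  obtain ⟨q, η, hq, hη, H27⟩ := hasPG_of_sys k hk 128 (by norm_num)
  obtain ⟨ε, γ, d₀, hε, hγ, hd₀, H32⟩ := exists_sys q hq η hη
  refine ⟨ε, γ, d₀, hε, hγ, hd₀, fun V _ _ G d hd hdc hsp => ?_⟩
  obtain ⟨s, D, hG, hs, hD⟩ := H32 V G d hd hdc hsp
  rw [← hG]
  exact H4 V s.G (H27 V s D hs hD)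

end Pool.Agent.Helper35.PM
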