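import Pool.Agent.Helper67.PM.GTP
import Pool.Agent.Helper64.PM.BadLe
import Pool.Agent.Helper15.PM.RotGood

/-!
# Project PM, module PM-27: a system gives a projective space
-/

set_option autoImplicit false

namespace Pool.Agent.Helper35.PM

open Finset
open scoped Classical

/-- PM-27: uses PM-7, 22, 26. -/
theorem hasPG_of_sys (k : ℕ) (hk : 2 ≤ k) (Λ : ℝ) (hΛ : 1 ≤ Λ) :
    ∃ (q : ℕ) (η : ℝ), 0 < q ∧ 0 < η ∧ ∀ (V : Type) [Fintype V] (s : Sys V) (D : ℝ),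
      s.OK Λ D η q → 1 ≤ η * D → HasPG s.G k := by
  obtain ⟨κ, M, hM, H26⟩ := hasPG_of_GTP k hk
  obtain ⟨δ, hδ, H22⟩ := exists_GTP Λ hΛ
  obtain ⟨C, hC, H7⟩ := bad_le k κ Λ δ hΛ hδ
  obtain ⟨q, η₀, hq, hη₀, H⟩ := H22 C M hC hM
  refine ⟨q, min η₀ (1 / C), hq, lt_min hη₀ (by positivity), fun V _ s D hs hD => ?_⟩
  by_contra hcon
  have h1 : C * min η₀ (1 / C) ≤ 1 := by
    calc C * min η₀ (1 / C) ≤ C * (1 / C) := mul_le_mul_of_nonneg_left (min_le_right _ _) hC.le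
      _ = 1 := mul_one_div_cancel hC.ne'
  have hbad := H7 V s D _ q hs h1 hcon
  obtain ⟨Y, hY, Z, hZ, h⟩ := H _ (lt_min hη₀ (by positivity)) (min_le_left _ _) V s D κ hs hD hbad
  exact hcon (H26 V s Λ D _ q hs Y hY Z hZ h)

end Pool.Agent.Helper35.PM
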