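import Pool.Agent.Helper35.PM.Defs2

/-!
# Project PM, modules PM-28, PM-29, PM-34: elementary facts on pairs, densest subgraph,
degeneracy, complete bipartite subgraphs
-/

set_option autoImplicit false

namespace Pool.Agent.Helper35.PM

open Finset
open scoped Classical

namespace H46

/-- the degree of `a` into `S` -/
noncomputable def dgr {V : Type} (G : SimpleGraph V) (a : V) (S : Finset V) : ℕ :=
  (S.filter fun b => G.Adj a b).card

theorem dgr_def {V : Type} (G : SimpleGraph V) (a : V) (S : Finset V) :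
    dgr G a S = (S.filter fun b => G.Adj a b).card := rfl

theorem ePairs_eq_sum {V : Type} (G : SimpleGraph V) (U W : Finset V) :
    ePairs G U W = ∑ u ∈ U, dgr G u W := by
  unfold ePairs dgr
  rw [Finset.card_filter, Finset.sum_product]
  refine Finset.sum_congr rfl fun u _ => ?_
  rw [Finset.card_filter]

theorem ePairs_comm {V : Type} (G : SimpleGraph V) (U W : Finset V) :
    ePairs G U W = ePairs G W U := by
  unfold ePairs
  refine Finset.card_bij (fun p _ => (p.2, p.1)) ?_ ?_ ?_
  · intro p hp
    rw [mem_filter, mem_product] at hp ⊢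
    exact ⟨⟨hp.1.2, hp.1.1⟩, hp.2.symm⟩
  · rintro ⟨a, b⟩ _ ⟨c, d⟩ _ h
    simp only [Prod.mk.injEq] at h
    rw [h.1, h.2]
  · rintro ⟨a, b⟩ h
    rw [mem_filter, mem_product] at h
    refine ⟨(b, a), ?_, rfl⟩
    rw [mem_filter, mem_product]
    exact ⟨⟨h.1.2, h.1.1⟩, h.2.symm⟩

theorem ePairs_mono {V : Type} (G : SimpleGraph V) {U U' W W' : Finset V} (hU : U ⊆ U')
    (hW : W ⊆ W') : ePairs G U W ≤ ePairs G U' W' := by
  unfold ePairs
  exact Finset.card_le_card (Finset.filter_subset_filter _ (Finset.product_subset_product hU hW))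

theorem dgr_mono {V : Type} (G : SimpleGraph V) (a : V) {S T : Finset V} (h : S ⊆ T) :
    dgr G a S ≤ dgr G a T :=
  Finset.card_le_card (Finset.filter_subset_filter _ h)

theorem dgr_union {V : Type} (G : SimpleGraph V) (a : V) {S T : Finset V} (h : Disjoint S T) :
    dgr G a (S ∪ T) = dgr G a S + dgr G a T := by
  unfold dgr
  rw [Finset.filter_union, Finset.card_union_of_disjoint (Finset.disjoint_filter_filter h)]

theorem dgr_insert {V : Type} (G : SimpleGraph V) (a v : V) {S : Finset V} (h : v ∉ S) :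
    dgr G a (insert v S) = dgr G a S + if G.Adj a v then 1 else 0 := by
  unfold dgr
  rw [Finset.filter_insert]
  split_ifs with h1
  · rw [Finset.card_insert_of_notMem fun h2 => h (Finset.mem_filter.1 h2).1]
  · rfl

theorem ePairs_insert_left {V : Type} (G : SimpleGraph V) (v : V) {S W : Finset V} (h : v ∉ S) :
    ePairs G (insert v S) W = ePairs G S W + dgr G v W := by
  rw [ePairs_eq_sum, ePairs_eq_sum, Finset.sum_insert h, add_comm]

theorem ePairs_insert_right {V : Type} (G : SimpleGraph V) (v : V) {S W : Finset V} (h : v ∉ W) :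
    ePairs G S (insert v W) = ePairs G S W + dgr G v S := by
  rw [ePairs_comm, ePairs_insert_left G v h, ePairs_comm G W S]

end H46

open H46

/-- PM-28: densest subgraph. -/
theorem exists_densest {V : Type} [Fintype V] [Nonempty V] (G : SimpleGraph V) (d : ℝ)
    (hd : 0 < d) (h : d * Fintype.card V ≤ ePairs G univ univ) :
    ∃ (V' : Finset V) (d' : ℝ), V'.Nonempty ∧ d ≤ d' ∧ (ePairs G V' V' : ℝ) = d' * V'.card ∧
      ∀ U ⊆ V', (ePairs G U U : ℝ) ≤ d' * U.card := by
  obtain ⟨V', hV', hmax⟩ := Finset.exists_max_image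
    ((univ : Finset (Finset V)).filter fun S => S.Nonempty)
    (fun S => (ePairs G S S : ℝ) / S.card)
    ⟨univ, by rw [mem_filter]; exact ⟨mem_univ _, univ_nonempty⟩⟩
  rw [mem_filter] at hV'
  have hc : (0 : ℝ) < V'.card := by exact_mod_cast hV'.2.card_pos
  refine ⟨V', (ePairs G V' V' : ℝ) / V'.card, hV'.2, ?_, ?_, fun U _ => ?_⟩
  · have h1 := hmax univ (by rw [mem_filter]; exact ⟨mem_univ _, univ_nonempty⟩)
    refine le_trans ?_ h1
    rw [le_div_iff₀ (by rw [Finset.card_univ]; exact_mod_cast Fintype.card_pos), Finset.card_univ]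
    exact h
  · rw [div_mul_cancel₀ _ hc.ne']
  · rcases U.eq_empty_or_nonempty with h0 | h0
    · subst h0
      simp [ePairs]
    · have h1 := hmax U (by rw [mem_filter]; exact ⟨mem_univ _, h0⟩)
      rwa [div_le_iff₀ (by exact_mod_cast h0.card_pos)] at h1

/-- PM-29: degeneracy. -/
theorem exists_back {V : Type} [Fintype V] (G : SimpleGraph V) (d : ℝ) (hd : 0 ≤ d)
    (V' : Finset V) (h : ∀ U ⊆ V', (ePairs G U U : ℝ) ≤ d * U.card) :
    ∃ Bk : V → Finset V, (∀ x, ∀ y ∈ Bk x, G.Adj x y) ∧ (∀ x, ((Bk x).card : ℝ) ≤ d) ∧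
      ∀ x ∈ V', ∀ y ∈ V', G.Adj x y → y ∈ Bk x ∨ x ∈ Bk y := by
  induction V' using Finset.strongInduction with
  | H V' ih =>
    rcases V'.eq_empty_or_nonempty with h0 | h0
    · subst h0
      refine ⟨fun _ => ∅, fun x y hy => absurd hy (Finset.notMem_empty y), fun x => ?_,
        fun x hx => absurd hx (Finset.notMem_empty x)⟩
      simpa using hd
    · obtain ⟨v, hv, hdeg⟩ : ∃ v ∈ V', (dgr G v V' : ℝ) ≤ d := by
        by_contra hcon
        push Not at hcon
        have h1 := Finset.sum_lt_sum_of_nonempty h0 hcon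
        have h2 := h V' (Finset.Subset.refl _)
        rw [ePairs_eq_sum] at h2
        push_cast at h2
        rw [Finset.sum_const, nsmul_eq_mul] at h1
        linarith [mul_comm d (V'.card : ℝ)]
      obtain ⟨Bk, hB1, hB2, hB3⟩ := ih (V'.erase v) (Finset.erase_ssubset hv)
        fun U hU => h U (hU.trans (Finset.erase_subset _ _))
      refine ⟨fun x => if x = v then V'.filter (fun b => G.Adj v b) else Bk x, fun x y hy => ?_,
        fun x => ?_, fun x hx y hy hxy => ?_⟩
      · by_cases hx : x = v
        · subst hx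
          simp only [if_true] at hy
          exact (Finset.mem_filter.1 hy).2
        · simp only [if_neg hx] at hy
          exact hB1 x y hy
      · by_cases hx : x = v
        · subst hx
          simp only [if_true]
          exact hdeg
        · simp only [if_neg hx]
          exact hB2 x
      · by_cases hx' : x = v
        · subst hx'
          left
          simp only [if_true]
          exact Finset.mem_filter.2 ⟨hy, hxy⟩
        · by_cases hy' : y = v
          · subst hy'
            right
            simp only [if_true]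
            exact Finset.mem_filter.2 ⟨hx, hxy.symm⟩
          · simp only [if_neg hx', if_neg hy']
            exact hB3 x (Finset.mem_erase.2 ⟨hx', hx⟩) y (Finset.mem_erase.2 ⟨hy', hy⟩) hxy

/-- PM-34: `K_{t,s}`. -/
theorem exists_Kts (t : ℕ) (ε : ℝ) (hε : 0 < ε) (hε1 : ε ≤ 1) {V : Type} [Fintype V]
    (G : SimpleGraph V) (U W : Finset V)
    (hU : 4 * t ≤ ε * U.card) (h : ε * (U.card * W.card) ≤ (ePairs G U W : ℝ)) :
    ∃ (T S : Finset V), T ⊆ U ∧ S ⊆ W ∧ T.card = t ∧ (ε / 4) ^ (t + 1) * W.card ≤ S.card ∧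
      ∀ x ∈ T, ∀ y ∈ S, G.Adj x y := by
  rcases U.eq_empty_or_nonempty with h0 | h0
  · subst h0
    have ht : t = 0 := by
      have : (4 * t : ℝ) ≤ 0 := by simpa using hU
      have : (t : ℝ) ≤ 0 := by linarith
      exact_mod_cast le_antisymm this (Nat.cast_nonneg t)
    subst ht
    refine ⟨∅, W, Finset.Subset.refl _, Finset.Subset.refl _, rfl, ?_,
      fun x hx => absurd hx (Finset.notMem_empty x)⟩
    have : (0 : ℝ) ≤ W.card := Nat.cast_nonneg _
    rw [zero_add, pow_one]
    nlinarith
  have hUpos : (0 : ℝ) < U.card := by exact_mod_cast h0.card_pos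
  set W0 : Finset V := W.filter fun w => ε / 2 * U.card ≤ (dgr G w U : ℝ) with hW0
  have hW0c : ε / 2 * W.card ≤ W0.card := by
    have h1 : (ePairs G U W : ℝ) ≤ W0.card * U.card + W.card * (ε / 2 * U.card) := by
      rw [ePairs_comm, ePairs_eq_sum]
      push_cast
      rw [← Finset.sum_filter_add_sum_filter_not W (fun w => ε / 2 * U.card ≤ (dgr G w U : ℝ))]
      refine add_le_add ?_ ?_
      · rw [← hW0, ← nsmul_eq_mul]
        refine Finset.sum_le_card_nsmul _ _ _ fun w _ => ?_
        exact_mod_cast Finset.card_filter_le _ _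
      · refine (Finset.sum_le_card_nsmul _ _ (ε / 2 * U.card) fun w hw => ?_).trans ?_
        · exact (not_le.1 (Finset.mem_filter.1 hw).2).le
        · rw [nsmul_eq_mul]
          refine mul_le_mul_of_nonneg_right ?_ (by positivity)
          exact_mod_cast Finset.card_filter_le _ _
    have h2 : ε / 2 * W.card * U.card ≤ W0.card * U.card := by nlinarith
    exact le_of_mul_le_mul_right h2 hUpos
  have key : ∀ j : ℕ, j ≤ t → ∃ (T S : Finset V), T ⊆ U ∧ S ⊆ W0 ∧ T.card = j ∧
      (ε / 4) ^ j * W0.card ≤ S.card ∧ ∀ x ∈ T, ∀ y ∈ S, G.Adj x y := by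
    intro j
    induction j with
    | zero =>
      intro _
      exact ⟨∅, W0, Finset.empty_subset _, Finset.Subset.refl _, rfl, by simp,
        fun x hx => absurd hx (Finset.notMem_empty x)⟩
    | succ j ih =>
      intro hj
      obtain ⟨T, S, hT, hS, hTc, hSc, hTS⟩ := ih (by omega)
      have hjt : (j : ℝ) + 1 ≤ t := by exact_mod_cast hj
      obtain ⟨x, hx, hxS⟩ : ∃ x ∈ U \ T, ε / 4 * S.card ≤ (dgr G x S : ℝ) := by
        by_contra hcon
        push Not at hcon
        have hne : (U \ T).Nonempty := by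
          rw [← Finset.card_pos, Finset.card_sdiff_of_subset hT, hTc]
          have : (j : ℝ) < U.card := by nlinarith
          have : j < U.card := by exact_mod_cast this
          omega
        have h1 := Finset.sum_lt_sum_of_nonempty hne hcon
        rw [Finset.sum_const, nsmul_eq_mul] at h1
        have h2 : (∑ x ∈ U \ T, (dgr G x S : ℝ)) = ∑ w ∈ S, (dgr G w (U \ T) : ℝ) := by
          have := ePairs_comm G (U \ T) S
          rw [ePairs_eq_sum, ePairs_eq_sum] at this
          exact_mod_cast this
        have h3 : (S.card : ℝ) * (ε / 4 * U.card) ≤ ∑ w ∈ S, (dgr G w (U \ T) : ℝ) := by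
          rw [← nsmul_eq_mul]
          refine Finset.card_nsmul_le_sum _ _ _ fun w hw => ?_
          have h4 : ε / 2 * U.card ≤ (dgr G w U : ℝ) := (Finset.mem_filter.1 (hS hw)).2
          have h5 : dgr G w U = dgr G w (U \ T) + dgr G w T := by
            rw [← dgr_union G w Finset.sdiff_disjoint, Finset.sdiff_union_of_subset hT]
          have h6 : dgr G w T ≤ j := hTc ▸ Finset.card_filter_le _ _
          have h7 : (dgr G w T : ℝ) ≤ j := by exact_mod_cast h6
          have h8 : (dgr G w U : ℝ) = dgr G w (U \ T) + dgr G w T := by exact_mod_cast h5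
          nlinarith
        have h9 : ((U \ T).card : ℝ) ≤ U.card := by
          exact_mod_cast Finset.card_le_card Finset.sdiff_subset
        have h10 : (0 : ℝ) ≤ ε / 4 * S.card := by positivity
        rw [h2] at h1
        nlinarith
      rw [Finset.mem_sdiff] at hx
      refine ⟨insert x T, S.filter (fun b => G.Adj x b), Finset.insert_subset hx.1 hT,
        (Finset.filter_subset _ _).trans hS, ?_, ?_, ?_⟩
      · rw [Finset.card_insert_of_notMem hx.2, hTc]
      · rw [pow_succ]
        have : (0 : ℝ) < ε / 4 := by positivity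
        calc (ε / 4) ^ j * (ε / 4) * W0.card = ε / 4 * ((ε / 4) ^ j * W0.card) := by ring
          _ ≤ ε / 4 * S.card := mul_le_mul_of_nonneg_left hSc this.le
          _ ≤ _ := hxS
      · intro z hz y hy
        rw [Finset.mem_filter] at hy
        rw [Finset.mem_insert] at hz
        rcases hz with rfl | hz
        · exact hy.2
        · exact hTS z hz y hy.1
  obtain ⟨T, S, hT, hS, hTc, hSc, hTS⟩ := key t le_rfl
  refine ⟨T, S, hT, hS.trans (Finset.filter_subset _ _), hTc, ?_, hTS⟩
  refine le_trans ?_ hSc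
  have h1 : (0 : ℝ) < (ε / 4) ^ t := by positivity
  rw [pow_succ, mul_assoc]
  refine mul_le_mul_of_nonneg_left ?_ h1.le
  have : (0 : ℝ) ≤ W.card := Nat.cast_nonneg _
  nlinarith

end Pool.Agent.Helper35.PM
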