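import Pool.Agent.Helper46.PM.Pairs

/-!
# Project PM, module PM-30: rows and columns
-/

set_option autoImplicit false

namespace Pool.Agent.Helper35.PM

open Finset
open scoped Classical

open H46

namespace H46

/-- a maximal cut between a subset of `L` and its complement in `V'` -/
theorem exists_cut {V : Type} (G : SimpleGraph V) (V' L : Finset V) (hL : L ⊆ V') :
    ∃ A0 ⊆ L, ePairs G L V' ≤ 4 * ePairs G A0 (V' \ A0) := by
  obtain ⟨A0, hA0, hmax⟩ := Finset.exists_max_image L.powerset (fun A => ePairs G A (V' \ A))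
    ⟨∅, Finset.empty_mem_powerset _⟩
  rw [Finset.mem_powerset] at hA0
  have hA0V : A0 ⊆ V' := hA0.trans hL
  refine ⟨A0, hA0, ?_⟩
  have hsplit : ∀ v, dgr G v V' = dgr G v (V' \ A0) + dgr G v A0 := by
    intro v
    rw [← dgr_union G v Finset.sdiff_disjoint, Finset.sdiff_union_of_subset hA0V]
  have hin : ∀ v ∈ A0, dgr G v A0 ≤ dgr G v (V' \ A0) := by
    intro v hv
    have h1 := hmax (A0.erase v) (Finset.mem_powerset.2 ((Finset.erase_subset _ _).trans hA0))
    have h2 : V' \ A0.erase v = insert v (V' \ A0) := by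
      ext x
      simp only [mem_sdiff, mem_erase, mem_insert]
      by_cases hx : x = v
      · subst hx
        simp [hA0V hv]
      · simp [hx]
    have h3 : v ∉ V' \ A0 := fun h => (Finset.mem_sdiff.1 h).2 hv
    have h4 : ePairs G A0 (V' \ A0) = ePairs G (A0.erase v) (V' \ A0) + dgr G v (V' \ A0) := by
      conv_lhs => rw [← Finset.insert_erase hv]
      rw [ePairs_insert_left G v (Finset.notMem_erase v A0), Finset.insert_erase hv]
    have h5 : dgr G v A0 = dgr G v (A0.erase v) := by
      conv_lhs => rw [← Finset.insert_erase hv]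
      rw [dgr_insert G v v (Finset.notMem_erase v A0)]
      simp
    rw [h2, ePairs_insert_right G v h3] at h1
    omega
  have hout : ∀ v ∈ L \ A0, dgr G v (V' \ A0) ≤ dgr G v A0 := by
    intro v hv
    rw [Finset.mem_sdiff] at hv
    have h1 := hmax (insert v A0) (Finset.mem_powerset.2 (Finset.insert_subset hv.1 hA0))
    have hvV : v ∈ V' \ A0 := Finset.mem_sdiff.2 ⟨hL hv.1, hv.2⟩
    have h2 : V' \ insert v A0 = (V' \ A0).erase v := by
      ext x
      simp only [mem_sdiff, mem_erase, mem_insert]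
      tauto
    have h4 : ePairs G A0 (V' \ A0) = ePairs G A0 ((V' \ A0).erase v) + dgr G v A0 := by
      conv_lhs => rw [← Finset.insert_erase hvV]
      rw [ePairs_insert_right G v (Finset.notMem_erase v _)]
    have h5 : dgr G v (V' \ A0) = dgr G v ((V' \ A0).erase v) := by
      conv_lhs => rw [← Finset.insert_erase hvV]
      rw [dgr_insert G v v (Finset.notMem_erase v _)]
      simp
    rw [h2, ePairs_insert_left G v hv.2] at h1
    omega
  have h6 : ePairs G L V' = ePairs G A0 V' + ePairs G (L \ A0) V' := by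
    rw [ePairs_eq_sum, ePairs_eq_sum, ePairs_eq_sum, add_comm,
      ← Finset.sum_sdiff hA0]
  have h7 : ePairs G A0 V' ≤ 2 * ePairs G A0 (V' \ A0) := by
    rw [ePairs_eq_sum, ePairs_eq_sum, Finset.mul_sum]
    refine Finset.sum_le_sum fun v hv => ?_
    have := hin v hv
    have := hsplit v
    omega
  have h8 : ePairs G (L \ A0) V' ≤ 2 * ePairs G (L \ A0) A0 := by
    rw [ePairs_eq_sum, ePairs_eq_sum, Finset.mul_sum]
    refine Finset.sum_le_sum fun v hv => ?_
    have := hout v hv
    have := hsplit v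
    omega
  have h9 : ePairs G (L \ A0) A0 ≤ ePairs G A0 (V' \ A0) := by
    rw [ePairs_comm]
    exact ePairs_mono G (Finset.Subset.refl _) (Finset.sdiff_subset_sdiff hL (Finset.Subset.refl _))
  omega

/-- extraction of subsets with large degrees on both sides -/
theorem exists_core {V : Type} (R : V → V → Prop) (A0 B0 : Finset V) (α β : ℝ) (hα : 0 ≤ α)
    (h : α * A0.card + β * B0.card < (((A0 ×ˢ B0).filter fun p => R p.1 p.2).card : ℝ)) :
    ∃ A ⊆ A0, ∃ B ⊆ B0, B.Nonempty ∧
      (∀ a ∈ A, α ≤ ((B.filter fun b => R a b).card : ℝ)) ∧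
      (∀ b ∈ B, β ≤ ((A.filter fun a => R a b).card : ℝ)) := by
  let F : Finset V × Finset V → ℝ := fun p =>
    (((p.1 ×ˢ p.2).filter fun p => R p.1 p.2).card : ℝ) - α * p.1.card - β * p.2.card
  obtain ⟨⟨A, B⟩, hAB, hmax⟩ := Finset.exists_max_image (A0.powerset ×ˢ B0.powerset) F
    ⟨(∅, ∅), Finset.mem_product.2 ⟨Finset.empty_mem_powerset _, Finset.empty_mem_powerset _⟩⟩
  rw [Finset.mem_product, Finset.mem_powerset, Finset.mem_powerset] at hAB
  simp only at hAB
  have hpos : 0 < F (A, B) := by
    refine lt_of_lt_of_le ?_ (hmax (A0, B0) (Finset.mem_product.2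
      ⟨Finset.mem_powerset_self _, Finset.mem_powerset_self _⟩))
    simp only [F]
    linarith
  have hcl : ∀ S T : Finset V, ((S ×ˢ T).filter fun p => R p.1 p.2).card =
      ∑ a ∈ S, (T.filter fun b => R a b).card := by
    intro S T
    rw [Finset.card_filter, Finset.sum_product]
    refine Finset.sum_congr rfl fun u _ => ?_
    rw [Finset.card_filter]
  have hcr : ∀ S T : Finset V, ((S ×ˢ T).filter fun p => R p.1 p.2).card =
      ∑ b ∈ T, (S.filter fun a => R a b).card := by
    intro S T
    rw [Finset.card_filter, Finset.sum_product_right]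
    refine Finset.sum_congr rfl fun u _ => ?_
    rw [Finset.card_filter]
  refine ⟨A, hAB.1, B, hAB.2, ?_, fun a ha => ?_, fun b hb => ?_⟩
  · rw [Finset.nonempty_iff_ne_empty]
    rintro rfl
    simp only [F, Finset.product_empty, Finset.filter_empty, Finset.card_empty, Nat.cast_zero,
      mul_zero, sub_zero, zero_sub] at hpos
    have : 0 ≤ α * A.card := by positivity
    linarith
  · have h1 := hmax (A.erase a, B) (Finset.mem_product.2
      ⟨Finset.mem_powerset.2 ((Finset.erase_subset _ _).trans hAB.1),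
        Finset.mem_powerset.2 hAB.2⟩)
    simp only [F] at h1
    have h2 : ((A ×ˢ B).filter fun p => R p.1 p.2).card =
        ((A.erase a ×ˢ B).filter fun p => R p.1 p.2).card + (B.filter fun b => R a b).card := by
      rw [hcl, hcl, ← Finset.sum_erase_add _ _ ha]
    have h3 : A.card = (A.erase a).card + 1 := (Finset.card_erase_add_one ha).symm
    rw [h2, h3] at h1
    push_cast at h1
    linarith
  · have h1 := hmax (A, B.erase b) (Finset.mem_product.2
      ⟨Finset.mem_powerset.2 hAB.1,
        Finset.mem_powerset.2 ((Finset.erase_subset _ _).trans hAB.2)⟩)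
    simp only [F] at h1
    have h2 : ((A ×ˢ B).filter fun p => R p.1 p.2).card =
        ((A ×ˢ B.erase b).filter fun p => R p.1 p.2).card + (A.filter fun a => R a b).card := by
      rw [hcr, hcr, ← Finset.sum_erase_add _ _ hb]
    have h3 : B.card = (B.erase b).card + 1 := (Finset.card_erase_add_one hb).symm
    rw [h2, h3] at h1
    push_cast at h1
    linarith

end H46

/-- PM-30: rows and columns. `b` is good for `a` if it is adjacent to `a` and to at most `η d`
neighbours of `a`. -/
theorem exists_rows_columns {V : Type} [Fintype V] (G : SimpleGraph V) (ε γ η d : ℝ)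
    (hd : 0 < d) (hε : 0 < ε) (hη : 0 < η) (h1 : 256 * ε ≤ η) (h2 : γ ≤ η) (V' : Finset V)
    (hne : V'.Nonempty)
    (hV' : (ePairs G V' V' : ℝ) = d * V'.card) (h : ∀ U ⊆ V', (ePairs G U U : ℝ) ≤ d * U.card)
    (hsp : NoSpot G ε γ d) :
    ∃ A B : Finset V, A ⊆ V' ∧ B ⊆ V' ∧ Disjoint A B ∧ B.Nonempty ∧
      (∀ a ∈ A, ((B.filter fun b => G.Adj a b).card : ℝ) ≤ 4 * d) ∧
      (∀ a ∈ A, d / 32 ≤ ((B.filter fun b => G.Adj a b ∧
        (((V'.filter fun c => G.Adj a c ∧ G.Adj b c).card : ℝ) ≤ η * d)).card : ℝ)) ∧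
      (∀ b ∈ B, d / 64 ≤ ((A.filter fun a => G.Adj a b ∧
        (((V'.filter fun c => G.Adj a c ∧ G.Adj b c).card : ℝ) ≤ η * d)).card : ℝ)) := by
  have hn : (0 : ℝ) < V'.card := by exact_mod_cast hne.card_pos
  set L : Finset V := V'.filter fun v => (dgr G v V' : ℝ) ≤ 4 * d with hL
  have hLV : L ⊆ V' := Finset.filter_subset _ _
  -- few vertices of large degree
  have hbig : ((V' \ L).card : ℝ) ≤ V'.card / 4 := by
    have h3 : ((V' \ L).card : ℝ) * (4 * d) ≤ ∑ v ∈ V' \ L, (dgr G v V' : ℝ) := by
      rw [← nsmul_eq_mul]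
      refine Finset.card_nsmul_le_sum _ _ _ fun v hv => ?_
      rw [Finset.mem_sdiff, hL, Finset.mem_filter] at hv
      exact (not_le.1 fun h4 => hv.2 ⟨hv.1, h4⟩).le
    have h4 : ∑ v ∈ V' \ L, (dgr G v V' : ℝ) ≤ (ePairs G V' V' : ℝ) := by
      rw [ePairs_eq_sum]
      push_cast
      exact Finset.sum_le_sum_of_subset_of_nonneg Finset.sdiff_subset fun _ _ _ => by positivity
    rw [hV'] at h4
    have h5 := h3.trans h4
    have h6 : ((V' \ L).card : ℝ) * 4 ≤ V'.card := by
      have : d * (((V' \ L).card : ℝ) * 4) ≤ d * V'.card := by linarith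
      exact le_of_mul_le_mul_left this hd
    linarith
  -- many edges meet `L`
  have hLe : 3 / 8 * d * V'.card ≤ (ePairs G L V' : ℝ) := by
    have h3 : ePairs G V' V' = ePairs G (V' \ L) V' + ePairs G L V' := by
      rw [ePairs_eq_sum, ePairs_eq_sum, ePairs_eq_sum, Finset.sum_sdiff hLV]
    have h4 : ePairs G (V' \ L) V' = ePairs G (V' \ L) (V' \ L) + ePairs G (V' \ L) L := by
      rw [ePairs_comm, ePairs_eq_sum, ePairs_comm G (V' \ L) (V' \ L), ePairs_eq_sum,
        ePairs_comm G (V' \ L) L, ePairs_eq_sum, Finset.sum_sdiff hLV]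
    have h5 : ePairs G (V' \ L) L ≤ ePairs G L V' := by
      rw [ePairs_comm]
      exact ePairs_mono G (Finset.Subset.refl _) Finset.sdiff_subset
    have h6 := h (V' \ L) Finset.sdiff_subset
    have h7 : (ePairs G V' V' : ℝ) ≤ ePairs G (V' \ L) (V' \ L) + 2 * ePairs G L V' := by
      have : ePairs G V' V' ≤ ePairs G (V' \ L) (V' \ L) + 2 * ePairs G L V' := by omega
      exact_mod_cast this
    rw [hV'] at h7
    have h8 : d * ((V' \ L).card : ℝ) ≤ d * (V'.card / 4) := mul_le_mul_of_nonneg_left hbig hd.le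
    linarith
  obtain ⟨A0, hA0, hcut⟩ := exists_cut G V' L hLV
  have hA0V : A0 ⊆ V' := hA0.trans hLV
  set B0 : Finset V := V' \ A0 with hB0
  have hcut' : 3 / 32 * d * V'.card ≤ (ePairs G A0 B0 : ℝ) := by
    have : (ePairs G L V' : ℝ) ≤ 4 * ePairs G A0 B0 := by exact_mod_cast hcut
    linarith
  have hVAB : (V'.card : ℝ) = A0.card + B0.card := by
    have := Finset.card_sdiff_add_card_eq_card hA0V
    rw [← hB0] at this
    rw [← this]
    push_cast
    ring
  have hB0pos : (0 : ℝ) < B0.card := by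
    by_contra hcon
    have h3 : B0.card = 0 := by
      have : (B0.card : ℝ) ≤ 0 := not_lt.1 hcon
      exact_mod_cast le_antisymm this (Nat.cast_nonneg _)
    rw [Finset.card_eq_zero] at h3
    rw [h3] at hcut'
    have h4 : ePairs G A0 ∅ = 0 := by simp [ePairs]
    rw [h4] at hcut'
    have : 0 < 3 / 32 * d * V'.card := by positivity
    simp at hcut'
    linarith
  obtain ⟨R, hR⟩ : ∃ R : V → V → Prop, ∀ a b, R a b ↔ G.Adj a b ∧
    (((V'.filter fun c => G.Adj a c ∧ G.Adj b c).card : ℝ) ≤ η * d) := ⟨_, fun a b => Iff.rfl⟩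
  -- few bad pairs at every vertex of `L`
  have hbad : ∀ a ∈ L, ((V'.filter fun b => G.Adj a b ∧ ¬ R a b).card : ℝ) ≤ d / 16 := by
    intro a ha
    set N : Finset V := V'.filter fun b => G.Adj a b with hN
    have hNc : (N.card : ℝ) ≤ 4 * d := (Finset.mem_filter.1 ha).2
    have hcom : ∀ b, (V'.filter fun c => G.Adj a c ∧ G.Adj b c).card = dgr G b N := by
      intro b
      unfold dgr
      rw [hN, Finset.filter_filter]
    by_cases hsm : (N.card : ℝ) < γ * d
    · have h3 : (V'.filter fun b => G.Adj a b ∧ ¬ R a b) = ∅ := by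
        rw [Finset.filter_eq_empty_iff]
        rintro b hb ⟨h4, h5⟩
        refine h5 ((hR a b).2 ⟨h4, ?_⟩)
        rw [hcom b]
        have h6 : (dgr G b N : ℝ) ≤ N.card := by exact_mod_cast Finset.card_filter_le _ _
        have h7 : γ * d ≤ η * d := mul_le_mul_of_nonneg_right h2 hd.le
        linarith
      rw [h3]
      simp only [Finset.card_empty, Nat.cast_zero]
      positivity
    · rw [not_lt] at hsm
      have h3 := hsp N N hsm hsm
      set Bd : Finset V := V'.filter fun b => G.Adj a b ∧ ¬ R a b with hBd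
      have h4 : (Bd.card : ℝ) * (η * d) ≤ ∑ b ∈ Bd, (dgr G b N : ℝ) := by
        rw [← nsmul_eq_mul]
        refine Finset.card_nsmul_le_sum _ _ _ fun b hb => ?_
        rw [hBd, Finset.mem_filter] at hb
        rw [← hcom b]
        by_contra h5
        exact hb.2.2 ((hR a b).2 ⟨hb.2.1, (not_le.1 h5).le⟩)
      have h5 : ∑ b ∈ Bd, (dgr G b N : ℝ) ≤ (ePairs G N N : ℝ) := by
        rw [ePairs_eq_sum]
        push_cast
        refine Finset.sum_le_sum_of_subset_of_nonneg ?_ fun _ _ _ => by positivity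
        intro b hb
        rw [hBd, Finset.mem_filter] at hb
        rw [hN, Finset.mem_filter]
        exact ⟨hb.1, hb.2.1⟩
      have h6 : (Bd.card : ℝ) * (η * d) ≤ ε * ((4 * d) * (4 * d)) := by
        refine (h4.trans (h5.trans h3.le)).trans ?_
        refine mul_le_mul_of_nonneg_left ?_ hε.le
        exact mul_le_mul hNc hNc (Nat.cast_nonneg _) (by positivity)
      have h7 : (Bd.card : ℝ) * η ≤ 16 * ε * d := by
        have : d * ((Bd.card : ℝ) * η) ≤ d * (16 * ε * d) := by linarith
        exact le_of_mul_le_mul_left this hd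
      have h8 : (Bd.card : ℝ) * (256 * ε) ≤ 16 * ε * d :=
        (mul_le_mul_of_nonneg_left h1 (Nat.cast_nonneg _)).trans h7
      have h9 : ε * ((Bd.card : ℝ) * 16) ≤ ε * d := by linarith
      have h10 := le_of_mul_le_mul_left h9 hε
      linarith
  -- many good pairs
  have hgood : (ePairs G A0 B0 : ℝ) ≤ (((A0 ×ˢ B0).filter fun p => R p.1 p.2).card : ℝ) +
      A0.card * (d / 16) := by
    have hcl : ((A0 ×ˢ B0).filter fun p => R p.1 p.2).card =
        ∑ a ∈ A0, (B0.filter fun b => R a b).card := by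
      rw [Finset.card_filter, Finset.sum_product]
      refine Finset.sum_congr rfl fun u _ => ?_
      rw [Finset.card_filter]
    rw [hcl, ePairs_eq_sum]
    push_cast
    rw [← nsmul_eq_mul (A0.card), ← Finset.sum_const, ← Finset.sum_add_distrib]
    refine Finset.sum_le_sum fun a ha => ?_
    have h3 : dgr G a B0 ≤ (B0.filter fun b => R a b).card +
        (V'.filter fun b => G.Adj a b ∧ ¬ R a b).card := by
      unfold dgr
      refine le_trans (Finset.card_le_card ?_) (Finset.card_union_le _ _)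
      intro b hb
      rw [Finset.mem_filter] at hb
      rw [Finset.mem_union, Finset.mem_filter, Finset.mem_filter]
      by_cases h4 : R a b
      · exact Or.inl ⟨hb.1, h4⟩
      · exact Or.inr ⟨(Finset.mem_sdiff.1 hb.1).1, hb.2, h4⟩
    have h4 := hbad a (hA0 ha)
    have h5 : (dgr G a B0 : ℝ) ≤ (B0.filter fun b => R a b).card +
        (V'.filter fun b => G.Adj a b ∧ ¬ R a b).card := by exact_mod_cast h3
    linarith
  obtain ⟨A, hA, B, hB, hBne, hAdeg, hBdeg⟩ := exists_core R A0 B0 (d / 32) (d / 64)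
    (by positivity) (by
      have h3 : 0 < d * B0.card := by positivity
      rw [hVAB] at hcut'
      have h4 : 0 ≤ d * (A0.card : ℝ) := by positivity
      linarith)
  refine ⟨A, B, hA.trans hA0V, hB.trans Finset.sdiff_subset, ?_, hBne, fun a ha => ?_,
    fun a ha => ?_, fun b hb => ?_⟩
  · exact Finset.disjoint_of_subset_left hA (Finset.disjoint_of_subset_right hB
      Finset.disjoint_sdiff)
  · have h3 := (Finset.mem_filter.1 (hA0 (hA ha))).2
    refine le_trans ?_ h3
    exact_mod_cast dgr_mono G a (hB.trans Finset.sdiff_subset)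
  · refine (hAdeg a ha).trans (le_of_eq ?_)
    congr 2
    ext b
    simp only [Finset.mem_filter, hR]
  · refine (hBdeg b hb).trans (le_of_eq ?_)
    congr 2
    ext a
    simp only [Finset.mem_filter, hR]

end Pool.Agent.Helper35.PM
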